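import Pool.Agent.Q137.GL.Stmts2
import Pool.Agent.Q137.GL.TaskAeX

set_option autoImplicit false

namespace Q137.GL.FBAeXL

open MeasureTheory Set Filter Topology

theorem main : TaskAeXL := by
  intro hcl F W hF hW hd
  have hGm : MeasurableSet (Wᶜ ∪ ⋂ k, ⋃ n, AD F 1 k n) :=
    hW.measurableSet.compl.union
      (MeasurableSet.iInter fun k => MeasurableSet.iUnion fun n => (hcl F 1 k n hF).measurableSet)
  generalize hG : (Wᶜ ∪ ⋂ k, ⋃ n, AD F 1 k n) = G at hGm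
  have hmemG : ∀ z, z ∈ G ↔ (z ∈ W → ∀ k, ∃ n, z ∈ AD F 1 k n) := by
    intro z
    rw [← hG]
    simp only [Set.mem_union, Set.mem_compl_iff, Set.mem_iInter, Set.mem_iUnion]
    tauto
  suffices h : ∀ᵐ z : ℂ, z ∈ G by
    filter_upwards [h] with z hz
    exact (hmemG z).mp hz
  have hline : ∀ y : ℝ, ∀ᵐ x : ℝ, ((x : ℂ) + y * Complex.I) ∈ G := by
    intro y
    filter_upwards [hd y] with x hx
    exact (hmemG _).mpr fun hw k => TaskAeX.mem_AD (hx hw) k
  have hmeas : MeasurableSet {p : ℝ × ℝ | ((p.1 : ℂ) + p.2 * Complex.I) ∈ G} := by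
    have hc : Continuous fun p : ℝ × ℝ => (p.1 : ℂ) + p.2 * Complex.I := by fun_prop
    exact hc.measurable hGm
  have h1 : ∀ᵐ x : ℝ, ∀ᵐ y : ℝ, ((x : ℂ) + y * Complex.I) ∈ G :=
    (Measure.ae_ae_comm hmeas).mpr (Eventually.of_forall hline)
  have hprod : ∀ᵐ p : ℝ × ℝ, ((p.1 : ℂ) + p.2 * Complex.I) ∈ G := by
    rw [Measure.volume_eq_prod]
    exact (Measure.ae_prod_iff_ae_ae hmeas).mpr h1
  have h2 := Complex.volume_preserving_equiv_real_prod.quasiMeasurePreserving.ae hprod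
  filter_upwards [h2] with z hz
  simpa [Complex.re_add_im] using hz

end Q137.GL.FBAeXL
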