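import Pool.Agent.Q137.GL.Stmts2
import Pool.Agent.Q137.GL.TaskVer

set_option autoImplicit false

namespace Q137.GL.FBVerL

open MeasureTheory Set Filter Topology
open Q137.HD (IsC1Curve)

theorem main : TaskVerL := by
  intro hor F W hL x
  have hcI : Continuous (fun z : ℂ => Complex.I * z) := continuous_const.mul continuous_id
  have hL' : Loc (fun z : ℂ => F (Complex.I * z)) ((fun z : ℂ => Complex.I * z) ⁻¹' W) := by
    refine ⟨hL.op.preimage hcI, hL.cont.comp hcI.continuousOn (mapsTo_preimage _ _), ?_, ?_, ?_⟩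
    · intro a ha b hb hab
      exact mul_left_cancel₀ Complex.I_ne_zero (hL.inj ha hb hab)
    · intro V hV hVo
      have e : (fun z : ℂ => F (Complex.I * z)) '' V = F '' ((fun z : ℂ => Complex.I * z) '' V) := by
        rw [Set.image_image]
      rw [e]
      refine hL.openMap _ (image_subset_iff.2 hV) ?_
      exact (Homeomorph.mulLeft₀ Complex.I Complex.I_ne_zero).isOpenMap V hVo
    · intro C hCW hC
      have e : (fun z : ℂ => F (Complex.I * z)) '' C = F '' ((fun z : ℂ => Complex.I * z) '' C) := by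
        rw [Set.image_image]
      rw [e]
      exact hL.pres _ (image_subset_iff.2 hCW) (TaskVer.isC1Curve_rot hC)
  have h := hor _ _ hL' (-x)
  refine h.mono (fun y hy hyW => ?_)
  have e0 : ∀ t : ℝ, Complex.I * ((t : ℂ) + ((-x : ℝ) : ℂ) * Complex.I) = (x : ℂ) + (t : ℂ) * Complex.I := by
    intro t
    push_cast
    linear_combination (-(x : ℂ)) * Complex.I_mul_I
  have e : (fun t : ℝ => F (Complex.I * ((t : ℂ) + ((-x : ℝ) : ℂ) * Complex.I))) =
      fun t : ℝ => F ((x : ℂ) + (t : ℂ) * Complex.I) := by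
    funext t
    rw [e0]
  have hy' : DifferentiableAt ℝ
      (fun t : ℝ => F (Complex.I * ((t : ℂ) + ((-x : ℝ) : ℂ) * Complex.I))) y := by
    apply hy
    show Complex.I * ((y : ℂ) + ((-x : ℝ) : ℂ) * Complex.I) ∈ W
    rw [e0]
    exact hyW
  rw [e] at hy'
  exact hy'

end Q137.GL.FBVerL
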